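import Mathlib

/-!
# The hitting lemma for MP_1cb037_nt

Two approximately linear integer-indexed sequences whose slopes have a good ratio: some pair of
rounded values has a prescribed sum.
-/

namespace Pool.Agent.helper98.Cas

/-- rounding offset: `0` for even index, `1/3` for odd index -/
noncomputable def sg (u : ℤ) : ℝ := if Even u then 0 else 1/3

lemma sg_nonneg (u : ℤ) : 0 ≤ sg u := by
  unfold sg; split_ifs <;> norm_num

lemma sg_le (u : ℤ) : sg u ≤ 1/3 := by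
  unfold sg; split_ifs <;> norm_num

lemma sg_even {u : ℤ} (h : Even u) : sg u = 0 := by simp [sg, h]

lemma sg_odd {u : ℤ} (h : Odd u) : sg u = 1/3 := by
  have : ¬ Even u := Int.not_even_iff_odd.mpr h
  simp [sg, this]

lemma sg_congr {u v : ℤ} (h : Even (u - v)) : sg u = sg v := by
  have : Even u ↔ Even v := by
    have := Int.even_sub.mp h
    exact this
  unfold sg
  simp only [this]

/-- the slope `β` is good at level `θ` -/
def Good (A θ β : ℝ) : Prop :=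
  ∀ (p : ℤ) (q : ℕ), 0 < q → (q:ℝ) < 2/θ → θ/A < |q*β - p|

/-- approximate linearity on a box -/
def Lin (x : ℤ → ℝ) (g e : ℝ) (B : ℝ) : Prop :=
  ∀ u u' : ℤ, |(u:ℝ)| ≤ B → |(u':ℝ)| ≤ B → |x u' - x u - g * (u' - u)| ≤ e

lemma dirichlet {A θ β : ℝ} (hA : 8 ≤ A) (hθ : 0 < θ) (hθ1 : θ ≤ 1) (hg : Good A θ β) :
    ∃ p : ℤ, ∃ q : ℕ, 0 < q ∧ 2/θ ≤ q ∧ (q:ℝ) ≤ A/θ ∧ |q*β - p| ≤ θ/A ∧ IsCoprime p (q:ℤ) := by
  have hA0 : 0 < A := by linarith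
  have hAθ : 1 ≤ A/θ := by
    rw [le_div_iff₀ hθ]; linarith
  have hn : 0 < ⌊A/θ⌋₊ := Nat.floor_pos.mpr hAθ
  obtain ⟨r, hr1, hr2⟩ := Real.exists_rat_abs_sub_le_and_den_le β hn
  have hden : (0:ℝ) < r.den := by exact_mod_cast r.den_pos
  have hfl : A/θ < (⌊A/θ⌋₊:ℝ) + 1 := Nat.lt_floor_add_one _
  have hq : |(r.den:ℝ)*β - r.num| ≤ θ/A := by
    have h1 : (r.den:ℝ)*β - r.num = r.den * (β - r) := by
      have : (r:ℝ) = r.num / r.den := by exact_mod_cast (Rat.num_div_den r).symm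
      rw [this]; field_simp
    rw [h1, abs_mul, abs_of_pos hden]
    calc (r.den:ℝ) * |β - r| ≤ r.den * (1 / ((⌊A/θ⌋₊ + 1) * r.den)) :=
          mul_le_mul_of_nonneg_left hr1 hden.le
      _ = 1 / ((⌊A/θ⌋₊:ℝ) + 1) := by field_simp
      _ ≤ 1 / (A/θ) := by
          apply one_div_le_one_div_of_le (by positivity) hfl.le
      _ = θ/A := by field_simp
  refine ⟨r.num, r.den, r.den_pos, ?_, ?_, hq, ?_⟩
  · by_contra hcon
    push Not at hcon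
    exact absurd hq (not_le.mpr (hg r.num r.den r.den_pos hcon))
  · have : (r.den:ℝ) ≤ ⌊A/θ⌋₊ := by exact_mod_cast hr2
    exact this.trans (Nat.floor_le (by positivity))
  · have := r.reduced
    rw [Int.isCoprime_iff_nat_coprime]
    simpa using this

lemma start_pt {A θ β : ℝ} (hA : 8 ≤ A) (hθ : 0 < θ) {p : ℤ} {q : ℕ} (hq0 : 0 < q)
    (hq1 : 2/θ ≤ q) (hpq : |q*β - p| ≤ θ/A) (hc : IsCoprime p (q:ℤ)) (τ : ℝ) (i j : ℤ) :
    ∃ u v : ℤ, Even (u - i) ∧ Even (v - j) ∧ i ≤ u ∧ u ≤ i + 2*q ∧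
      |u*β + v - τ| ≤ 3/4*θ := by
  have hA0 : 0 < A := by linarith
  have hq0' : (0:ℝ) < q := by exact_mod_cast hq0
  have hq0z : (0:ℤ) < q := by exact_mod_cast hq0
  obtain ⟨a, b, hab⟩ := hc
  set τ' : ℝ := τ - i*β - j with hτ'
  set c : ℤ := round (q*τ'/2) with hcdef
  have hcr : |(q*τ'/2) - c| ≤ 1/2 := abs_sub_round _
  set u' : ℤ := (c*a) % q with hu'
  set v' : ℤ := c*b + p*((c*a)/q) with hv'
  have hu0 : 0 ≤ u' := Int.emod_nonneg _ hq0z.ne'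
  have hu1 : u' < q := Int.emod_lt_of_pos _ hq0z
  have hsum : u'*p + v'*q = c := by
    have h1 : u' = c*a - q*((c*a)/q) := by
      have := Int.emod_add_mul_ediv (c*a) q
      linarith
    rw [h1, hv']
    have : c * (a*p + b*q) = c := by rw [hab, mul_one]
    linear_combination this
  refine ⟨i + 2*u', j + 2*v', by simp, by simp, by linarith, by linarith, ?_⟩
  have hsumR : (u':ℝ)*p + v'*q = c := by exact_mod_cast hsum
  have hkey : (q:ℝ) * (((i + 2*u' : ℤ):ℝ)*β + ((j+2*v' : ℤ):ℝ) - τ)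
      = 2*u'*(q*β - p) - 2*((q*τ'/2) - c) := by
    push_cast
    rw [hτ']
    linear_combination (2) * hsumR
  have hb : |(q:ℝ) * (((i + 2*u' : ℤ):ℝ)*β + ((j+2*v' : ℤ):ℝ) - τ)| ≤ q*(3/4*θ) := by
    rw [hkey]
    have h1 : |2*(u':ℝ)*(q*β - p)| ≤ 2*q*(θ/A) := by
      rw [abs_mul]
      have h2 : |2*(u':ℝ)| ≤ 2*q := by
        rw [abs_of_nonneg (by positivity)]
        have : (u':ℝ) ≤ q := by exact_mod_cast hu1.le
        linarith
      exact mul_le_mul h2 hpq (abs_nonneg _) (by positivity)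
    have h3 : |2*((q*τ'/2) - (c:ℝ))| ≤ 1 := by
      rw [abs_mul]; norm_num; linarith
    have h4 : 2*(q:ℝ)*(θ/A) ≤ 1/4*(q*θ) := by
      rw [mul_div_assoc', div_le_iff₀ hA0]
      nlinarith [mul_pos hq0' hθ]
    have h5 : (1:ℝ) ≤ 1/2*(q*θ) := by
      rw [div_le_iff₀ hθ] at hq1
      linarith
    calc _ ≤ |2*(u':ℝ)*(q*β - p)| + |2*((q*τ'/2) - (c:ℝ))| := abs_sub _ _
      _ ≤ _ := by linarith
  rw [abs_mul, abs_of_pos hq0'] at hb
  exact le_of_mul_le_mul_left hb hq0'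

lemma small_vec {A θ β : ℝ} (hA : 8 ≤ A) (hθ : 0 < θ) (hθ1 : θ ≤ 1) (hβ0 : 0 ≤ β) (hβ2 : β ≤ 2)
    {p : ℤ} {q : ℕ} (hq0 : 0 < q) (hq1 : 2/θ ≤ q) (hq2 : (q:ℝ) ≤ A/θ) (hpq : |q*β - p| ≤ θ/A)
    (hc : IsCoprime p (q:ℤ)) :
    ∃ a b : ℤ, θ/(2*A) ≤ a*β + b ∧ a*β + b ≤ θ ∧ |(a:ℝ)| ≤ A/θ ∧ |(b:ℝ)| ≤ 3*(A/θ) := by
  have hA0 : 0 < A := by linarith
  have hAθ : 8 ≤ A/θ := by
    rw [le_div_iff₀ hθ]; nlinarith
  have hq0' : (0:ℝ) < q := by exact_mod_cast hq0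
  have hq0z : (0:ℤ) < q := by exact_mod_cast hq0
  -- it suffices to have it up to sign
  suffices H : ∃ a b : ℤ, θ/(2*A) ≤ |a*β + b| ∧ |a*β + b| ≤ θ ∧ |(a:ℝ)| ≤ A/θ by
    obtain ⟨a, b, h1, h2, h3⟩ := H
    have hb : |(b:ℝ)| ≤ 3*(A/θ) := by
      have : (b:ℝ) = (a*β+b) - a*β := by ring
      rw [this]
      calc |(a*β+b) - a*β| ≤ |a*β+b| + |a*β| := abs_sub _ _
        _ ≤ θ + (A/θ)*2 := by
            rw [abs_mul (a:ℝ) β, abs_of_nonneg hβ0]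
            gcongr
        _ ≤ 3*(A/θ) := by linarith
    rcases le_or_gt 0 ((a:ℝ)*β + b) with h | h
    · rw [abs_of_nonneg h] at h1 h2
      exact ⟨a, b, h1, h2, h3, hb⟩
    · rw [abs_of_neg h] at h1 h2
      refine ⟨-a, -b, ?_, ?_, ?_, ?_⟩
      · push_cast; linarith
      · push_cast; linarith
      · push_cast; rwa [abs_neg]
      · push_cast; rwa [abs_neg]
  obtain ⟨a0, b0, hab⟩ := hc
  set q' : ℤ := a0 % q with hq'
  set p' : ℤ := -(b0 + p*(a0/q)) with hp'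
  have hu0 : 0 ≤ q' := Int.emod_nonneg _ hq0z.ne'
  have hu1 : q' < q := Int.emod_lt_of_pos _ hq0z
  have hdet : q'*p - q*p' = 1 := by
    have h1 : q' = a0 - q*(a0/q) := by
      have := Int.emod_add_mul_ediv a0 q
      linarith
    rw [h1, hp']
    linear_combination hab
  have hdetR : (q':ℝ)*p - q*p' = 1 := by exact_mod_cast hdet
  have hu0' : (0:ℝ) ≤ q' := by exact_mod_cast hu0
  have hu1' : (q':ℝ) ≤ q := by exact_mod_cast hu1.le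
  by_cases hcase : θ/(2*A) ≤ |q*β - p|
  · refine ⟨q, -p, ?_, ?_, ?_⟩
    · push_cast
      rw [← sub_eq_add_neg]; exact hcase
    · push_cast
      rw [← sub_eq_add_neg]
      refine hpq.trans ?_
      rw [div_le_iff₀ hA0]; nlinarith
    · push_cast; rw [abs_of_pos hq0']; exact hq2
  · push Not at hcase
    refine ⟨q', -p', ?_, ?_, ?_⟩
    · push_cast
      rw [← sub_eq_add_neg]
      have h1 : (1:ℝ) = q*(q'*β - p') - q'*(q*β-p) := by linear_combination -hdetR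
      have h2 : 1 ≤ q*|q'*β - p'| + q'*|q*β-p| := by
        calc (1:ℝ) = |q*(q'*β - p') - q'*(q*β-p)| := by rw [← h1, abs_one]
          _ ≤ |q*(q'*β - p')| + |q'*(q*β-p)| := abs_sub _ _
          _ = _ := by rw [abs_mul, abs_mul, abs_of_pos hq0', abs_of_nonneg hu0']
      have h3 : q'*|q*β-p| ≤ 1/2 := by
        calc q'*|q*β-p| ≤ (A/θ)*(θ/(2*A)) :=
              mul_le_mul (hu1'.trans hq2) hcase.le (abs_nonneg _) (by positivity)
          _ = 1/2 := by field_simp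
      have h4 : 1/2 ≤ (A/θ) * |q'*β - p'| := by
        calc (1:ℝ)/2 ≤ q*|q'*β - p'| := by linarith
          _ ≤ _ := mul_le_mul_of_nonneg_right hq2 (abs_nonneg _)
      have h5 : (A/θ) * (θ/(2*A)) = 1/2 := by field_simp
      rw [← h5] at h4
      exact le_of_mul_le_mul_left h4 (by positivity)
    · push_cast
      rw [← sub_eq_add_neg]
      have h1 : q*(q'*β - p') = 1 + q'*(q*β-p) := by linear_combination hdetR
      have h2 : q*|q'*β - p'| ≤ q*θ := by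
        calc q*|q'*β - p'| = |q*(q'*β - p')| := by rw [abs_mul, abs_of_pos hq0']
          _ = |1 + q'*(q*β-p)| := by rw [h1]
          _ ≤ |1| + |q'*(q*β-p)| := abs_add_le _ _
          _ = 1 + q'*|q*β-p| := by rw [abs_one, abs_mul, abs_of_nonneg hu0']
          _ ≤ 1 + q*(θ/(2*A)) := by
              gcongr
          _ ≤ q*θ := by
              have h5 : (1:ℝ) ≤ 1/2*(q*θ) := by
                rw [div_le_iff₀ hθ] at hq1
                linarith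
              have h6 : q*(θ/(2*A)) ≤ 1/2*(q*θ) := by
                rw [mul_div_assoc', div_le_iff₀ (by positivity)]
                nlinarith [mul_pos hq0' hθ]
              linarith
      exact le_of_mul_le_mul_left h2 hq0'
    · rw [abs_of_nonneg hu0']
      exact hu1'.trans hq2

lemma step {x y : ℤ → ℝ} {g g' e B δ s s' : ℝ} {k0 : ℤ}
    (hx : Lin x g e B) (hy : Lin y g' e B) {u0 v0 a b : ℤ} {K : ℕ}
    (hδ : 0 < δ) (hδ1 : δ ≤ 1/100) (he : e ≤ δ/500) (hab : g * a + g' * b = δ)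
    (hs : s ≤ 1/3) (hs' : s' ≤ 1/3) (hs0 : 0 ≤ s) (hs0' : 0 ≤ s')
    (hbox : ∀ t : ℕ, t ≤ K → |((u0 + 2*a*t : ℤ):ℝ)| ≤ B ∧ |((v0 + 2*b*t : ℤ):ℝ)| ≤ B)
    (hstart : x u0 + y v0 ≤ k0 - 11/3)
    (hend : (k0:ℝ) + 1 ≤ x (u0+2*a*K) + y (v0+2*b*K))
    (hno : ∀ t : ℕ, t ≤ K → ⌈x (u0+2*a*t) + s⌉ + ⌈y (v0+2*b*t) + s'⌉ ≠ k0) :
    ∃ t : ℕ, t ≤ K ∧ ∃ m n N : ℤ, m + n = k0 - 1 ∧
      x (u0+2*a*t) + s ≤ m ∧ m - 2.02*δ ≤ x (u0+2*a*t) + s ∧
      y (v0+2*b*t) + s' ≤ n ∧ n - 2.02*δ ≤ y (v0+2*b*t) + s' ∧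
      -e ≤ 2*(g*a) - N ∧ -e ≤ 2*(g'*b) + N := by
  classical
  have he0 : e ≤ 1/100 := by linarith
  let S : ℕ → ℤ := fun t => ⌈x (u0+2*a*t) + s⌉ + ⌈y (v0+2*b*t) + s'⌉
  have hS0 : S 0 < k0 := by
    have h1 : (⌈x (u0+2*a*(0:ℕ)) + s⌉:ℝ) < x (u0+2*a*(0:ℕ)) + s + 1 := Int.ceil_lt_add_one _
    have h2 : (⌈y (v0+2*b*(0:ℕ)) + s'⌉:ℝ) < y (v0+2*b*(0:ℕ)) + s' + 1 := Int.ceil_lt_add_one _
    have h3 : ((S 0 : ℤ):ℝ) < k0 := by
      simp only [S]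
      push_cast at h1 h2 ⊢
      simp only [mul_zero, add_zero] at h1 h2 ⊢
      linarith
    exact_mod_cast h3
  have hSK : k0 < S K := by
    have h1 := Int.le_ceil (x (u0+2*a*K) + s)
    have h2 := Int.le_ceil (y (v0+2*b*K) + s')
    have h3 : (k0:ℝ) < S K := by
      simp only [S]
      push_cast
      linarith
    exact_mod_cast h3
  have hex : ∃ t : ℕ, k0 ≤ S t := ⟨K, hSK.le⟩
  set t1 := Nat.find hex with ht1
  have ht1S : k0 ≤ S t1 := Nat.find_spec hex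
  have ht1K : t1 ≤ K := Nat.find_min' hex hSK.le
  have ht10 : t1 ≠ 0 := by
    intro h
    rw [h] at ht1S
    omega
  obtain ⟨t, ht⟩ := Nat.exists_eq_succ_of_ne_zero ht10
  have htK : t + 1 ≤ K := by rw [← Nat.succ_eq_add_one, ← ht]; exact ht1K
  have hSt : S t < k0 := by
    by_contra hcon
    push Not at hcon
    have := Nat.find_min' hex hcon
    omega
  have hSt1 : k0 < S (t+1) := by
    rw [ht] at ht1S
    exact lt_of_le_of_ne ht1S (fun h => hno (t+1) htK h.symm)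
  obtain ⟨hb1, hb2⟩ := hbox t (by omega)
  obtain ⟨hb3, hb4⟩ := hbox (t+1) htK
  have hX := hx _ _ hb1 hb3
  have hY := hy _ _ hb2 hb4
  rw [abs_le] at hX hY
  push_cast at hX hY
  set X := x (u0+2*a*t) with hXd
  set Y := y (v0+2*b*t) with hYd
  have ex : x (u0 + 2*a*((t:ℤ)+1)) = x (u0 + 2*a*((t+1:ℕ):ℤ)) := by push_cast; rfl
  have ey : y (v0 + 2*b*((t:ℤ)+1)) = y (v0 + 2*b*((t+1:ℕ):ℤ)) := by push_cast; rfl
  rw [ex] at hX
  rw [ey] at hY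
  set X' := x (u0+2*a*((t+1:ℕ):ℤ)) with hX'd
  set Y' := y (v0+2*b*((t+1:ℕ):ℤ)) with hY'd
  have hm1 := Int.le_ceil (X + s)
  have hm2 : (⌈X + s⌉:ℝ) < X + s + 1 := Int.ceil_lt_add_one _
  have hn1 := Int.le_ceil (Y + s')
  have hn2 : (⌈Y + s'⌉:ℝ) < Y + s' + 1 := Int.ceil_lt_add_one _
  have hm1' := Int.le_ceil (X' + s)
  have hm2' : (⌈X' + s⌉:ℝ) < X' + s + 1 := Int.ceil_lt_add_one _
  have hn1' := Int.le_ceil (Y' + s')
  have hn2' : (⌈Y' + s'⌉:ℝ) < Y' + s' + 1 := Int.ceil_lt_add_one _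
  set m := ⌈X + s⌉
  set n := ⌈Y + s'⌉
  set m' := ⌈X' + s⌉
  set n' := ⌈Y' + s'⌉
  have hSt_eq : S t = m + n := rfl
  have hSt1_eq : S (t+1) = m' + n' := rfl
  have hga : g * ((u0:ℝ) + 2*a*(t+1) - (u0 + 2*a*t)) = 2*(g*a) := by ring
  have hgb : g' * ((v0:ℝ) + 2*b*(t+1) - (v0 + 2*b*t)) = 2*(g'*b) := by ring
  rw [hga] at hX
  rw [hgb] at hY
  have hup : m' + n' < m + n + 3 := by
    have : ((m' + n' : ℤ):ℝ) < ((m + n + 3 : ℤ):ℝ) := by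
      push_cast
      linarith
    exact_mod_cast this
  have hmn : m + n = k0 - 1 := by omega
  have hmn' : m' + n' = k0 + 1 := by omega
  have hmnR : (m:ℝ) + n = k0 - 1 := by exact_mod_cast hmn
  have hmnR' : (m':ℝ) + n' = k0 + 1 := by exact_mod_cast hmn'
  refine ⟨t, by omega, m, n, m' - m - 1, hmn, hm1, ?_, hn1, ?_, ?_, ?_⟩
  · linarith
  · linarith
  · push_cast; linarith
  · push_cast; linarith

lemma compare {x y : ℤ → ℝ} {g g' e B δ : ℝ} {i0 j0 k0 : ℤ}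
    (hx : Lin x g e B) (hy : Lin y g' e B)
    {u1 v1 u2 v2 a b N m1 n1 m2 n2 : ℤ} {K : ℕ}
    (hδ : 0 < δ) (hδ1 : δ ≤ 1/100) (he : e ≤ δ/500)
    (hab : g * a + g' * b = δ)
    (hK1 : (K:ℝ) * (2*δ) ≤ 1/3)
    (hN1 : -e ≤ 2*(g*a) - N) (hN2 : -e ≤ 2*(g'*b) + N)
    (hi : Even (u1 + i0)) (hj : Even (v1 + j0))
    (hB1 : |(u1:ℝ)| ≤ B) (hB2 : |(u2:ℝ)| ≤ B) (hB1' : |(v1:ℝ)| ≤ B) (hB2' : |(v2:ℝ)| ≤ B)
    (hB3 : |((3*u1 - 2*u2 - 4*K*a : ℤ):ℝ)| ≤ B) (hB3' : |((3*v1 - 2*v2 - 4*K*b : ℤ):ℝ)| ≤ B)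
    (h1 : m1 + n1 = k0 - 1) (h2 : m2 + n2 = k0 - 1)
    (h1x : x u1 ≤ m1) (h1x' : m1 - 2.02*δ ≤ x u1)
    (h1y : y v1 ≤ n1) (h1y' : n1 - 2.02*δ ≤ y v1)
    (h2x : x u2 + 1/3 ≤ m2) (h2x' : m2 - 2.02*δ ≤ x u2 + 1/3)
    (h2y : y v2 ≤ n2) (h2y' : n2 - 2.02*δ ≤ y v2)
    (hno : ⌈x (3*u1 - 2*u2 - 4*K*a) + sg (3*u1 - 2*u2 - 4*K*a + i0)⌉
      + ⌈y (3*v1 - 2*v2 - 4*K*b) + sg (3*v1 - 2*v2 - 4*K*b + j0)⌉ ≠ k0) :
    K * (2*(g'*b) + N) ≤ 3.1*δ := by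
  by_contra hcon
  push Not at hcon
  apply hno
  rw [sg_even (u := 3*u1 - 2*u2 - 4*K*a + i0), sg_even (u := 3*v1 - 2*v2 - 4*K*b + j0)]
  rotate_left
  · have : 3*v1 - 2*v2 - 4*K*b + j0 = (v1 + j0) + 2*(v1 - v2 - 2*K*b) := by ring
    rw [this]; exact hj.add (even_two_mul _)
  · have : 3*u1 - 2*u2 - 4*K*a + i0 = (u1 + i0) + 2*(u1 - u2 - 2*K*a) := by ring
    rw [this]; exact hi.add (even_two_mul _)
  have hX := hx _ _ hB1 hB3
  have hX2 := hx _ _ hB2 hB1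
  have hY := hy _ _ hB1' hB3'
  have hY2 := hy _ _ hB2' hB1'
  rw [abs_le] at hX hX2 hY hY2
  push_cast at hX hY
  have hK0 : (0:ℝ) ≤ K := by positivity
  have hKe : K * e ≤ 1/3000 := by
    calc (K:ℝ) * e ≤ K * (δ/500) := by gcongr
      _ = (K*(2*δ))/1000 := by ring
      _ ≤ _ := by linarith
  set sx : ℝ := K * (2*(g*a) - N) with hsx
  set sy : ℝ := K * (2*(g'*b) + N) with hsy
  have hsum : sx + sy = K*(2*δ) := by rw [hsx, hsy, ← hab]; ring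
  have hsx0 : -(1/3000) ≤ sx := by
    have : K * (-e) ≤ sx := mul_le_mul_of_nonneg_left hN1 hK0
    linarith
  have hsy0 : -(1/3000) ≤ sy := by
    have : K * (-e) ≤ sy := mul_le_mul_of_nonneg_left hN2 hK0
    linarith
  have hKa : (K:ℝ)*(g*a) = (sx + K*N)/2 := by rw [hsx]; ring
  have hKb : (K:ℝ)*(g'*b) = (sy - K*N)/2 := by rw [hsy]; ring
  have hgX : g * (3*(u1:ℝ) - 2*u2 - 4*K*a - u1) = 2*(g*(u1 - u2)) - 2*(sx + K*N) := by
    have : g * (3*(u1:ℝ) - 2*u2 - 4*K*a - u1) = 2*(g*(u1 - u2)) - 4*(K*(g*a)) := by ring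
    rw [this, hKa]; ring
  have hgY : g' * (3*(v1:ℝ) - 2*v2 - 4*K*b - v1) = 2*(g'*(v1 - v2)) - 2*(sy - K*N) := by
    have : g' * (3*(v1:ℝ) - 2*v2 - 4*K*b - v1) = 2*(g'*(v1 - v2)) - 4*(K*(g'*b)) := by ring
    rw [this, hKb]; ring
  rw [hgX] at hX
  rw [hgY] at hY
  set X3 := x (3*u1 - 2*u2 - 4*K*a)
  set Y3 := y (3*v1 - 2*v2 - 4*K*b)
  have c1 : ⌈X3 + 0⌉ = m1 + 2*(m1 - m2 - K*N) + 1 := by
    rw [Int.ceil_eq_iff]
    push_cast
    constructor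
    · linarith
    · linarith
  have c2 : ⌈Y3 + 0⌉ = n1 - 2*(m1 - m2 - K*N) := by
    have h1R : (m1:ℝ) + n1 = k0 - 1 := by exact_mod_cast h1
    have h2R : (m2:ℝ) + n2 = k0 - 1 := by exact_mod_cast h2
    rw [Int.ceil_eq_iff]
    push_cast
    constructor
    · linarith
    · linarith
  rw [c1, c2]
  linarith


theorem hitting {A η₁ θ g g' e B : ℝ} (hA : 8 ≤ A) (hη : 0 < η₁) (hθ : 0 < θ) (hθ1 : θ ≤ 1)
    (hgg : g' ≤ g) (hgg2 : g ≤ 2*g') (h1 : η₁ ≤ g'*θ) (h2 : g'*θ ≤ 1/100)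
    (he : e ≤ η₁/(1000*A)) (hgood : Good A θ (g/g')) (hB : 500*A^2/(η₁*θ) ≤ B)
    {x y : ℤ → ℝ} (hx : Lin x g e B) (hy : Lin y g' e B)
    (i0 j0 k0 : ℤ) (hk : |x 0 + y 0 - k0| ≤ 8*g') :
    ∃ u v : ℤ, |(u:ℝ)| ≤ B ∧ |(v:ℝ)| ≤ B ∧
      ⌈x u + sg (u+i0)⌉ + ⌈y v + sg (v+j0)⌉ = k0 := by
  by_contra hcon
  push Not at hcon
  have hA0 : 0 < A := by linarith
  have hg'0 : 0 < g' := by
    by_contra h
    push Not at h
    nlinarith
  have hη1 : η₁ ≤ 1/100 := h1.trans h2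
  obtain ⟨p, q, hq0, hq1, hq2, hpq, hc⟩ := dirichlet hA hθ hθ1 hgood
  have hβ0 : 0 ≤ g/g' := div_nonneg (hg'0.le.trans hgg) hg'0.le
  have hβ2 : g/g' ≤ 2 := by rw [div_le_iff₀ hg'0]; exact hgg2
  obtain ⟨a, b, hab1, hab2, ha, hb⟩ := small_vec hA hθ hθ1 hβ0 hβ2 hq0 hq1 hq2 hpq hc
  set δ : ℝ := g*a + g'*b with hδd
  have hδeq : δ = g'*(a*(g/g') + b) := by
    rw [hδd]; field_simp
  have hδlow : g'*(θ/(2*A)) ≤ δ := by
    rw [hδeq]; exact mul_le_mul_of_nonneg_left hab1 hg'0.le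
  have hδup : δ ≤ g'*θ := by
    rw [hδeq]; exact mul_le_mul_of_nonneg_left hab2 hg'0.le
  have hδlow2 : η₁/(2*A) ≤ δ := by
    refine le_trans ?_ hδlow
    rw [mul_div_assoc']
    gcongr
  have hδ0 : 0 < δ := lt_of_lt_of_le (by positivity) hδlow2
  have hδ1 : δ ≤ 1/100 := hδup.trans h2
  have heδ : e ≤ δ/500 := by
    refine he.trans ?_
    have : η₁/(1000*A) = (η₁/(2*A))/500 := by field_simp; norm_num
    rw [this]; gcongr
  -- the unit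
  set U : ℝ := A^2/(η₁*θ) with hU
  have hU0 : 0 < U := by positivity
  have hBU : 500*U ≤ B := by
    rw [hU]; rw [mul_div_assoc'] ; exact hB
  have hAθ : A/θ ≤ U/800 := by
    rw [hU, div_div, div_le_div_iff₀ hθ (by positivity)]
    nlinarith [mul_pos hA0 hθ, mul_pos (mul_pos hA0 hθ) hη]
  have hAθ8 : 8 ≤ A/θ := by rw [le_div_iff₀ hθ]; nlinarith
  have hηU : 4*θ/η₁ ≤ U/16 := by
    rw [hU, div_div, div_le_div_iff₀ hη (by positivity)]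
    have h64 : 64 ≤ A^2 := by nlinarith
    have hθθ : θ*θ ≤ 1 := by nlinarith
    calc 4*θ*(η₁*θ*16) = 64*η₁*(θ*θ) := by ring
      _ ≤ 64*η₁*1 := by gcongr
      _ ≤ A^2*η₁ := by nlinarith
  -- number of steps
  set K : ℕ := ⌈3/δ⌉₊ with hKd
  have hK1 : 3/δ ≤ K := Nat.le_ceil _
  have hK2 : (K:ℝ) < 3/δ + 1 := Nat.ceil_lt_add_one (by positivity)
  have hK3 : (K:ℝ) ≤ 4/δ := by
    have : 1 ≤ 1/δ := by rw [le_div_iff₀ hδ0]; linarith
    have h4 : 4/δ = 3/δ + 1/δ := by ring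
    linarith
  have hδinv : 1/δ ≤ 2*A/η₁ := by
    rw [div_le_div_iff₀ hδ0 hη]
    rw [div_le_iff₀ (by positivity)] at hδlow2
    linarith
  have hKA : (K:ℝ) ≤ 8*A/η₁ := by
    calc (K:ℝ) ≤ 4/δ := hK3
      _ = 4*(1/δ) := by ring
      _ ≤ 4*(2*A/η₁) := by gcongr
      _ = _ := by ring
  have hKa : 2*|(a:ℝ)| *K ≤ 16*U := by
    calc 2*|(a:ℝ)| *K ≤ 2*(A/θ)*(8*A/η₁) := by gcongr
      _ = 16*U := by rw [hU]; field_simp; ring
  have hKb : 2*|(b:ℝ)| *K ≤ 48*U := by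
    calc 2*|(b:ℝ)| *K ≤ 2*(3*(A/θ))*(8*A/η₁) := by gcongr
      _ = 48*U := by rw [hU]; field_simp; ring
  -- step in a given parity class
  have main : ∀ i j : ℤ, 0 ≤ i → i ≤ 1 → 0 ≤ j → j ≤ 1 →
      ∃ u v m n N : ℤ, Even (u - i) ∧ Even (v - j) ∧ |(u:ℝ)| ≤ 49*U ∧ |(v:ℝ)| ≤ 49*U ∧
        m + n = k0 - 1 ∧
        x u + sg (i + i0) ≤ m ∧ m - 2.02*δ ≤ x u + sg (i + i0) ∧
        y v + sg (j + j0) ≤ n ∧ n - 2.02*δ ≤ y v + sg (j + j0) ∧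
        -e ≤ 2*(g*a) - N ∧ -e ≤ 2*(g'*b) + N := by
    intro i j hi0 hi1 hj0 hj1
    set τ : ℝ := (k0 - 23/6 - x 0 - y 0)/g' with hτ
    obtain ⟨u0, v0, hpu, hpv, hu1, hu2, huv⟩ := start_pt hA hθ hq0 hq1 hpq hc τ i j
    have hi0' : (0:ℝ) ≤ i := by exact_mod_cast hi0
    have hi1' : (i:ℝ) ≤ 1 := by exact_mod_cast hi1
    have hu1' : (i:ℝ) ≤ u0 := by exact_mod_cast hu1
    have hu2' : (u0:ℝ) ≤ i + 2*q := by exact_mod_cast hu2
    have hu0b : |(u0:ℝ)| ≤ 3*(A/θ) := by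
      rw [abs_of_nonneg (by linarith)]
      linarith
    have hu0b' : |(u0:ℝ)| ≤ U/100 := by
      linarith
    have hτb : |τ| ≤ 8 + 4*θ/η₁ := by
      rw [hτ, abs_div, abs_of_pos hg'0, div_le_iff₀ hg'0]
      have h4 : 4 ≤ 4*θ/η₁*g' := by
        rw [div_mul_eq_mul_div, le_div_iff₀ hη]
        nlinarith
      calc |(k0:ℝ) - 23/6 - x 0 - y 0| = |-(x 0 + y 0 - k0) - 23/6| := by ring_nf
        _ ≤ |-(x 0 + y 0 - k0)| + |(23/6:ℝ)| := abs_sub _ _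
        _ ≤ 8*g' + 4 := by
            rw [abs_neg]
            have : |(23/6:ℝ)| ≤ 4 := by rw [abs_of_pos (by norm_num)]; norm_num
            linarith
        _ ≤ _ := by linarith
    have hv0b : |(v0:ℝ)| ≤ U/8 := by
      have e1 : (v0:ℝ) = ((u0:ℝ)*(g/g') + v0 - τ) + τ - u0*(g/g') := by ring
      rw [e1]
      have hug : |(u0:ℝ)*(g/g')| ≤ (3*(A/θ))*2 := by
        rw [abs_mul, abs_of_nonneg hβ0]
        gcongr
      calc |((u0:ℝ)*(g/g') + v0 - τ) + τ - u0*(g/g')|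
          ≤ |((u0:ℝ)*(g/g') + v0 - τ) + τ| + |(u0:ℝ)*(g/g')| := abs_sub _ _
        _ ≤ |(u0:ℝ)*(g/g') + v0 - τ| + |τ| + |(u0:ℝ)*(g/g')| := by
            gcongr; exact abs_add_le _ _
        _ ≤ 3/4*θ + (8 + 4*θ/η₁) + (3*(A/θ))*2 := by gcongr
        _ ≤ U/8 := by linarith
    -- value at the start
    have hz0 : |x u0 + y v0 - (k0 - 23/6)| ≤ 1/6 := by
      have hB0 : |((0:ℤ):ℝ)| ≤ B := by simp; linarith
      have hX := hx 0 u0 hB0 (by linarith)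
      have hY := hy 0 v0 hB0 (by linarith)
      have e1 : x u0 + y v0 - (k0 - 23/6) =
          (x u0 - x 0 - g*(u0 - (0:ℤ))) + (y v0 - y 0 - g'*(v0 - (0:ℤ)))
          + g'*((u0:ℝ)*(g/g') + v0 - τ) := by
        rw [hτ]; field_simp; push_cast; ring
      rw [e1]
      calc _ ≤ |(x u0 - x 0 - g*(u0 - (0:ℤ))) + (y v0 - y 0 - g'*(v0 - (0:ℤ)))|
          + |g'*((u0:ℝ)*(g/g') + v0 - τ)| := abs_add_le _ _
        _ ≤ (e + e) + g'*(3/4*θ) := by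
            rw [abs_mul, abs_of_pos hg'0]
            gcongr
            exact (abs_add_le _ _).trans (add_le_add hX hY)
        _ ≤ 1/6 := by linarith
    have hbox : ∀ t : ℕ, t ≤ K → |((u0 + 2*a*t : ℤ):ℝ)| ≤ 49*U ∧
        |((v0 + 2*b*t : ℤ):ℝ)| ≤ 49*U := by
      intro t ht
      have htR : (t:ℝ) ≤ K := by exact_mod_cast ht
      have ht0 : (0:ℝ) ≤ t := by positivity
      constructor
      · push_cast
        calc |(u0:ℝ) + 2*a*t| ≤ |(u0:ℝ)| + |2*(a:ℝ)*t| := abs_add_le _ _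
          _ = |(u0:ℝ)| + 2*|(a:ℝ)| *t := by
              rw [abs_mul, abs_mul, abs_of_nonneg ht0, abs_of_pos (by norm_num : (0:ℝ) < 2)]
          _ ≤ |(u0:ℝ)| + 2*|(a:ℝ)| *K := by gcongr
          _ ≤ 49*U := by linarith
      · push_cast
        calc |(v0:ℝ) + 2*b*t| ≤ |(v0:ℝ)| + |2*(b:ℝ)*t| := abs_add_le _ _
          _ = |(v0:ℝ)| + 2*|(b:ℝ)| *t := by
              rw [abs_mul, abs_mul, abs_of_nonneg ht0, abs_of_pos (by norm_num : (0:ℝ) < 2)]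
          _ ≤ |(v0:ℝ)| + 2*|(b:ℝ)| *K := by gcongr
          _ ≤ 49*U := by linarith
    have hbox' : ∀ t : ℕ, t ≤ K → |((u0 + 2*a*t : ℤ):ℝ)| ≤ B ∧
        |((v0 + 2*b*t : ℤ):ℝ)| ≤ B := fun t ht =>
      ⟨(hbox t ht).1.trans (by linarith), (hbox t ht).2.trans (by linarith)⟩
    have hsgu : ∀ t : ℕ, sg (u0 + 2*a*t + i0) = sg (i + i0) := by
      intro t
      apply sg_congr
      have : u0 + 2*a*t + i0 - (i + i0) = (u0 - i) + 2*(a*t) := by ring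
      rw [this]; exact hpu.add (even_two_mul _)
    have hsgv : ∀ t : ℕ, sg (v0 + 2*b*t + j0) = sg (j + j0) := by
      intro t
      apply sg_congr
      have : v0 + 2*b*t + j0 - (j + j0) = (v0 - j) + 2*(b*t) := by ring
      rw [this]; exact hpv.add (even_two_mul _)
    rw [abs_le] at hz0
    obtain ⟨t, htK, m, n, N, k1, k2, k3, k4, k5, k6, k7⟩ := step (k0 := k0) (K := K) hx hy hδ0 hδ1
      heδ (hδd.symm) (sg_le (i+i0)) (sg_le (j+j0)) (sg_nonneg _) (sg_nonneg _) hbox'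
      (by linarith)
      (by
        obtain ⟨hb1, hb2⟩ := hbox' K le_rfl
        obtain ⟨hb3, hb4⟩ := hbox' 0 (Nat.zero_le _)
        simp only [Nat.cast_zero, mul_zero, add_zero] at hb3 hb4
        have hX := hx _ _ hb3 hb1
        have hY := hy _ _ hb4 hb2
        rw [abs_le] at hX hY
        push_cast at hX hY
        have hKδ : 6 ≤ (K:ℝ)*(2*δ) := by
          rw [div_le_iff₀ hδ0] at hK1
          linarith
        have e1 : g*((u0:ℝ) + 2*a*K - u0) + g'*((v0:ℝ) + 2*b*K - v0) = K*(2*δ) := by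
          rw [hδd]; ring
        linarith)
      (by
        intro t ht
        obtain ⟨hb1, hb2⟩ := hbox' t ht
        have := hcon _ _ hb1 hb2
        rwa [hsgu t, hsgv t] at this)
    refine ⟨u0 + 2*a*t, v0 + 2*b*t, m, n, N, ?_, ?_, (hbox t htK).1, (hbox t htK).2, k1, k2, k3,
      k4, k5, k6, k7⟩
    · have : u0 + 2*a*t - i = (u0 - i) + 2*(a*t) := by ring
      rw [this]; exact hpu.add (even_two_mul _)
    · have : v0 + 2*b*t - j = (v0 - j) + 2*(b*t) := by ring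
      rw [this]; exact hpv.add (even_two_mul _)
  -- the even classes
  obtain ⟨i, hi0, hi1, hie⟩ : ∃ i : ℤ, 0 ≤ i ∧ i ≤ 1 ∧ Even (i + i0) := by
    rcases Int.even_or_odd i0 with h | h
    · exact ⟨0, le_rfl, by norm_num, by simpa using h⟩
    · exact ⟨1, by norm_num, le_rfl, by rw [add_comm]; exact h.add_one⟩
  obtain ⟨j, hj0, hj1, hje⟩ : ∃ j : ℤ, 0 ≤ j ∧ j ≤ 1 ∧ Even (j + j0) := by
    rcases Int.even_or_odd j0 with h | h
    · exact ⟨0, le_rfl, by norm_num, by simpa using h⟩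
    · exact ⟨1, by norm_num, le_rfl, by rw [add_comm]; exact h.add_one⟩
  have hio : Odd ((1 - i) + i0) := by
    have : (1 - i) + i0 = (i + i0) + (1 - 2*i) := by ring
    rw [this]
    exact hie.add_odd (by rw [sub_eq_add_neg]; exact (odd_one).add_even (by simp))
  have hjo : Odd ((1 - j) + j0) := by
    have : (1 - j) + j0 = (j + j0) + (1 - 2*j) := by ring
    rw [this]
    exact hje.add_odd (by rw [sub_eq_add_neg]; exact (odd_one).add_even (by simp))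
  obtain ⟨u1, v1, m1, n1, N, p1, p1', b1, b1', s1, q1, q2, q3, q4, q5, q6⟩ :=
    main i j hi0 hi1 hj0 hj1
  obtain ⟨u2, v2, m2, n2, N2, p2, p2', b2, b2', s2, r1, r2, r3, r4, r5, r6⟩ :=
    main (1-i) j (by omega) (by omega) hj0 hj1
  obtain ⟨u3, v3, m3, n3, N3, p3, p3', b3, b3', s3, t1, t2, t3, t4, t5, t6⟩ :=
    main i (1-j) hi0 hi1 (by omega) (by omega)
  rw [sg_even hie] at q1 q2 t1 t2
  rw [sg_even hje] at q3 q4 r3 r4
  rw [sg_odd hio] at r1 r2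
  rw [sg_odd hjo] at t3 t4
  simp only [add_zero] at q1 q2 q3 q4 r3 r4 t1 t2
  set K' : ℕ := ⌊1/(6*δ)⌋₊ with hK'
  have hK'1 : (K':ℝ) ≤ 1/(6*δ) := Nat.floor_le (by positivity)
  have hK'2 : 1/(6*δ) < K' + 1 := Nat.lt_floor_add_one _
  have hK'3 : (K':ℝ)*(2*δ) ≤ 1/3 := by
    calc (K':ℝ)*(2*δ) ≤ 1/(6*δ)*(2*δ) := by gcongr
      _ = 1/3 := by field_simp; norm_num
  have hK'4 : 1/3 - 2*δ ≤ (K':ℝ)*(2*δ) := by
    have : 1/3 ≤ (K'+1:ℝ)*(2*δ) := by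
      calc (1:ℝ)/3 = 1/(6*δ)*(2*δ) := by field_simp; norm_num
        _ ≤ _ := by gcongr
    linarith
  have hK'A : (K':ℝ) ≤ A/(3*η₁) := by
    calc (K':ℝ) ≤ 1/(6*δ) := hK'1
      _ = (1/δ)/6 := by field_simp
      _ ≤ (2*A/η₁)/6 := by gcongr
      _ = A/(3*η₁) := by field_simp; ring
  have hK'a : 4*K'*|(a:ℝ)| ≤ 4*U := by
    calc 4*K'*|(a:ℝ)| ≤ 4*(A/(3*η₁))*(A/θ) := by gcongr
      _ = 4/3*U := by rw [hU]; field_simp
      _ ≤ 4*U := by linarith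
  have hK'b : 4*K'*|(b:ℝ)| ≤ 4*U := by
    calc 4*K'*|(b:ℝ)| ≤ 4*(A/(3*η₁))*(3*(A/θ)) := by gcongr
      _ = 4*U := by rw [hU]; field_simp
  have hboxc : ∀ (r r' c : ℤ), |(r:ℝ)| ≤ 49*U → |(r':ℝ)| ≤ 49*U → 4*K'*|(c:ℝ)| ≤ 4*U →
      |((3*r - 2*r' - 4*K'*c : ℤ):ℝ)| ≤ B := by
    intro r r' c hr hr' hc
    push_cast
    calc |3*(r:ℝ) - 2*r' - 4*K'*c| ≤ |3*(r:ℝ) - 2*r'| + |4*(K':ℝ)*c| := abs_sub _ _
      _ ≤ |3*(r:ℝ)| + |2*(r':ℝ)| + |4*(K':ℝ)*c| := by gcongr; exact abs_sub _ _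
      _ = 3*|(r:ℝ)| + 2*|(r':ℝ)| + 4*K'*|(c:ℝ)| := by
          rw [abs_mul, abs_mul, abs_mul, abs_of_pos (by norm_num : (0:ℝ) < 3),
            abs_of_pos (by norm_num : (0:ℝ) < 2), abs_of_nonneg (by positivity : (0:ℝ) ≤ 4*K')]
      _ ≤ B := by linarith
  have hN1 : N2 = N := by
    have h1 : (N2:ℝ) < N + 1 := by linarith
    have h2 : (N:ℝ) < N2 + 1 := by linarith
    have h1' : N2 < N + 1 := by exact_mod_cast h1
    have h2' : N < N2 + 1 := by exact_mod_cast h2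
    omega
  have C1 := compare (i0 := i0) (j0 := j0) (k0 := k0) hx hy hδ0 hδ1 heδ hδd.symm hK'3
    q5 q6 (by have : u1 + i0 = (u1 - i) + (i + i0) := by ring
              rw [this]; exact p1.add hie)
    (by have : v1 + j0 = (v1 - j) + (j + j0) := by ring
        rw [this]; exact p1'.add hje)
    (by linarith) (by linarith) (by linarith) (by linarith)
    (hboxc _ _ _ b1 b2 hK'a) (hboxc _ _ _ b1' b2' hK'b) s1 s2 q1 q2 q3 q4 r1 r2 r3 r4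
    (hcon _ _ (hboxc _ _ _ b1 b2 hK'a) (hboxc _ _ _ b1' b2' hK'b))
  have C2 := compare (i0 := j0) (j0 := i0) (k0 := k0) (N := -N) hy hx hδ0 hδ1 heδ
    (by rw [hδd]; ring) hK'3
    (by push_cast; linarith) (by push_cast; linarith)
    (by have : v1 + j0 = (v1 - j) + (j + j0) := by ring
        rw [this]; exact p1'.add hje)
    (by have : u1 + i0 = (u1 - i) + (i + i0) := by ring
        rw [this]; exact p1.add hie)
    (by linarith) (by linarith) (by linarith) (by linarith)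
    (hboxc _ _ _ b1' b3' hK'b) (hboxc _ _ _ b1 b3 hK'a) (by rw [add_comm]; exact s1)
    (by rw [add_comm]; exact s3) q3 q4 q1 q2 t3 t4 t1 t2
    (by rw [add_comm]; exact hcon _ _ (hboxc _ _ _ b1 b3 hK'a) (hboxc _ _ _ b1' b3' hK'b))
  push_cast at C2
  have hsum : (K':ℝ)*(2*(g'*b) + N) + K'*(2*(g*a) + -N) = K'*(2*δ) := by rw [hδd]; ring
  linarith

end Pool.Agent.helper98.Cas
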